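import Pool.Agent.H61.KW.TA

/-!
# Kuiper board KW, module SEG: the segment argument
-/

set_option autoImplicit false

open Set Pool.Agent.H61.KV Pool.Agent.H61.KW

namespace Pool.Agent.H34.KW.SEG

theorem pf_SEG : T_SEG := by
  intro V _ _ _ C q g hC hqf hg hgf hov hmin r hr hrs
  have hq : q ∈ C := hqf.1
  obtain ⟨h, hh⟩ := hqf.2 r hr
  have hdec : r - h ∈ Fc C q := foot_dec hC hq hr hh
  have hhC : h ∈ C := foot_memC hC hq hh
  have hhf : Foot C q h h := foot_self hC hq hh
  -- enough: `h ∈ Fc C g`
  have hkey : h ∈ Fc C g := by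
    have hhs : h ∈ Sp C g ⊔ Sp C q := by
      have e1 : h = r - (r - h) := by abel
      rw [e1]
      exact Submodule.sub_mem _ hrs ((le_sup_right : Sp C q ≤ Sp C g ⊔ Sp C q) (mem_sp hdec))
    obtain ⟨g1, hg1, t1, ht1, hsum⟩ := Submodule.mem_sup.1 hhs
    by_cases hg1C : g1 ∈ C
    · have hg1F : g1 ∈ Fc C g := of_sp hC hg hg1C hg1
      have hg1f : Foot C q g1 g1 := foot_down hC hqf hg hgf hg1F
      have hd : h - g1 ∈ Sp C q := by
        have e2 : h - g1 = t1 := by rw [← hsum]; abel
        rw [e2]
        exact ht1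
      have heq : h = g1 := foot_uniq hC hq hd hhf hg1f
      rw [heq]
      exact hg1F
    · exfalso
      have hvS : g1 - g ∈ Sp C g := Submodule.sub_mem _ hg1 (self_sp hC hg)
      have hvC : g1 - g ∉ C := by
        intro hv
        apply hg1C
        have e3 : g1 = g + (g1 - g) := by abel
        rw [e3]
        exact hC.add _ hg _ hv
      obtain ⟨s, hs0, hs1, hs2⟩ := leave hC hg hvS hvC
      have hslt : s < 1 := by
        by_contra hcon
        push Not at hcon
        apply hg1C
        have hsi : 0 ≤ s⁻¹ := inv_nonneg.2 hs0.le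
        have hsi1 : 0 ≤ 1 - s⁻¹ := by
          have := inv_le_one_of_one_le₀ hcon
          linarith
        have e4 : g1 = (1 - s⁻¹) • g + s⁻¹ • (g + s • (g1 - g)) := by
          rw [smul_add, smul_smul, inv_mul_cancel₀ hs0.ne', one_smul, sub_smul, one_smul]
          abel
        rw [e4]
        exact hC.add _ (hC.smul _ hsi1 _ hg) _ (hC.smul _ hsi _ (mem_C hs1))
      have hnov := hmin _ hs1 hs2
      apply hnov
      intro ξ hξ hξq hξw
      have ht0 : ξ t1 = 0 := fun_zero hξ hξq ht1
      have e5 : ξ h = ξ g1 := by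
        rw [← hsum, map_add, ht0, add_zero]
      have e6 : ξ g + s * (ξ h - ξ g) = 0 := by
        rw [map_add, map_smul, map_sub, smul_eq_mul] at hξw
        rw [e5]
        exact hξw
      have h7 : 0 ≤ ξ g := hξ g hg
      have h8 : 0 ≤ ξ h := hξ h hhC
      have h9 : 0 ≤ s * ξ h := mul_nonneg hs0.le h8
      have h10 : 0 ≤ (1 - s) * ξ g := mul_nonneg (by linarith) h7
      have h11 : (1 - s) * ξ g = 0 := by
        have : (1 - s) * ξ g + s * ξ h = 0 := by
          rw [← e6]
          ring
        linarith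
      have h12 : ξ g = 0 := by
        rcases mul_eq_zero.1 h11 with h13 | h13
        · linarith
        · exact h13
      exact hov ξ hξ hξq h12
  exact ⟨h, hkey, r - h, hdec, by abel⟩

end Pool.Agent.H34.KW.SEG
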